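import Pool.Agent.Helper41.LD6.Defs
import Pool.Agent.Helper78.LD6.NR

/-!
# Project LD6: the resonances of a stage are covered by few short intervals
-/

set_option autoImplicit false

namespace Pool.Agent.Helper34.LD6

open Set MeasureTheory Filter Topology
open Pool.Agent.Helper41.LD6

private theorem big34 {F : Pm} (hF : F.Ok) {K : ℕ} (hK : F.Big K) :
    F.t * (F.Gp * F.E K) + 1 ≤ 2 ^ K ∧ 4 * K ≤ F.E K ∧ 10 ≤ K := by
  have hX := hF.hX
  have hZ : F.Z ^ 4 ≤ K := hK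
  have hZ1 : 10000 ≤ F.Z := by
    unfold Pm.Z
    calc 10000 = 1000 * (0 + 1) * (0 + 10) := by norm_num
      _ ≤ _ := Nat.mul_le_mul (Nat.mul_le_mul_left _ (by omega)) (by omega)
  have hZ2 : F.t * F.Gp ≤ F.Z := by
    unfold Pm.Z
    calc F.t * F.Gp = 1 * (F.t * F.Gp) := by ring
      _ ≤ 1000 * (F.X + 1) * (F.C₂ + F.R + F.t * F.Gp + F.D' + 10) :=
        Nat.mul_le_mul (by omega) (by omega)
  have hZ3 : F.d + 4 ≤ F.Z := by
    refine le_trans ?_ hZ2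
    have h1 : 40 ≤ F.Gp := by
      unfold Pm.Gp
      calc 40 = 1 * 40 := by norm_num
        _ ≤ F.X * (F.D + 40) := Nat.mul_le_mul hX (by omega)
    have h2 : F.t = 2 * (F.d + 1) := rfl
    rw [h2]
    calc F.d + 4 ≤ 2 * (F.d + 1) * 40 := by omega
      _ ≤ 2 * (F.d + 1) * F.Gp := Nat.mul_le_mul_left _ h1
  have hZK : F.Z ^ 2 ≤ K := by
    refine le_trans ?_ hZ
    exact Nat.pow_le_pow_right (by omega) (by norm_num)
  have hK10 : 10 ≤ K := by nlinarith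
  refine ⟨?_, ?_, hK10⟩
  · have h1 : F.t * (F.Gp * F.E K) ≤ K ^ 2 := by
      calc F.t * (F.Gp * F.E K) = (F.t * F.Gp) * ((F.d + 4) * K) := by unfold Pm.E; ring
        _ ≤ F.Z * (F.Z * K) := Nat.mul_le_mul hZ2 (Nat.mul_le_mul_right _ hZ3)
        _ = F.Z ^ 2 * K := by ring
        _ ≤ K * K := Nat.mul_le_mul_right _ hZK
        _ = K ^ 2 := by ring
    have h2 : ∀ n : ℕ, 10 ≤ n → n ^ 2 + 1 ≤ 2 ^ n := by
      intro n hn
      induction n, hn using Nat.le_induction with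
      | base => norm_num
      | succ n hn ih =>
        have h3 : 2 ^ (n + 1) = 2 * 2 ^ n := by ring
        rw [h3]
        nlinarith
    exact (Nat.add_le_add_right h1 1).trans (h2 K hK10)
  · unfold Pm.E
    exact Nat.mul_le_mul_right _ (by omega)

variable {F : Pm} {K : ℕ}

/-- **V**: the resonances of a stage are covered by few short intervals -/
theorem nr_cover (hF : F.Ok) (hK : F.Big K) : ∃ S : Finset ℝ, S.card ≤ 2 ^ (75 * (F.d + 1) * F.E K) ∧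
    ∀ x ∈ Icc F.x₁ F.x₂, (∀ y ∈ S, x ∉ Icc (y - (1 / 2) ^ (F.D₁ * F.E K)) (y + (1 / 2) ^ (F.D₁ * F.E K))) →
      NR6 F.t (F.t * (F.Gp * F.E K)) (2 ^ (3 * K)) (2 ^ (31 * F.E K)) ((1 / 2) ^ (F.D * F.E K)) x := by
  obtain ⟨hS, hE4, hK10⟩ := big34 hF hK
  set S := F.t * (F.Gp * F.E K) with hSdef
  set E₀ := F.E K with hE₀
  obtain ⟨E, hEc, hE⟩ := Pool.Agent.Helper78.LD6.nonres_cover F.t S (2 ^ (31 * E₀) * (2 ^ (3 * K) + S)) (ρ := (1 / 2) ^ (F.D₁ * E₀))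
    (by positivity) (pow_le_one₀ (by norm_num) (by norm_num))
  refine ⟨E, ?_, ?_⟩
  · -- the count
    refine hEc.trans ?_
    have h1 : 2 ^ (3 * K) + S ≤ 2 ^ (3 * K + 1) := by
      have h2 : 2 ^ K ≤ 2 ^ (3 * K) := Nat.pow_le_pow_right (by norm_num) (by omega)
      have h3 : 2 ^ (3 * K + 1) = 2 * 2 ^ (3 * K) := by ring
      omega
    have h2 : 2 * (2 ^ (31 * E₀) * (2 ^ (3 * K) + S)) + 1 ≤ 2 ^ (31 * E₀ + 3 * K + 3) := by
      have h3 : 2 ^ (31 * E₀) * (2 ^ (3 * K) + S) ≤ 2 ^ (31 * E₀ + 3 * K + 1) := by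
        calc 2 ^ (31 * E₀) * (2 ^ (3 * K) + S) ≤ 2 ^ (31 * E₀) * 2 ^ (3 * K + 1) := Nat.mul_le_mul_left _ h1
          _ = 2 ^ (31 * E₀ + 3 * K + 1) := by ring
      have h4 : 1 ≤ 2 ^ (31 * E₀ + 3 * K + 1) := Nat.one_le_pow _ _ (by norm_num)
      have h5 : 2 ^ (31 * E₀ + 3 * K + 3) = 4 * 2 ^ (31 * E₀ + 3 * K + 1) := by ring
      omega
    have h3 : (S + 1) * (2 * (2 ^ (31 * E₀) * (2 ^ (3 * K) + S)) + 1) + 1 ≤ 2 ^ (33 * E₀) := by
      have h4 : (S + 1) * (2 * (2 ^ (31 * E₀) * (2 ^ (3 * K) + S)) + 1) ≤ 2 ^ (31 * E₀ + 4 * K + 3) := by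
        calc _ ≤ 2 ^ K * 2 ^ (31 * E₀ + 3 * K + 3) := Nat.mul_le_mul hS h2
          _ = 2 ^ (31 * E₀ + 4 * K + 3) := by ring
      have h5 : 1 ≤ 2 ^ (31 * E₀ + 4 * K + 3) := Nat.one_le_pow _ _ (by norm_num)
      have h6 : 2 ^ (31 * E₀ + 4 * K + 4) = 2 * 2 ^ (31 * E₀ + 4 * K + 3) := by ring
      have h7 : 2 ^ (31 * E₀ + 4 * K + 4) ≤ 2 ^ (33 * E₀) := Nat.pow_le_pow_right (by norm_num) (by omega)
      omega
    calc ((S + 1) * (2 * (2 ^ (31 * E₀) * (2 ^ (3 * K) + S)) + 1) + 1) ^ F.t * 2 ^ F.t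
        ≤ (2 ^ (33 * E₀)) ^ F.t * 2 ^ F.t := Nat.mul_le_mul_right _ (Nat.pow_le_pow_left h3 _)
      _ = 2 ^ ((33 * E₀ + 1) * F.t) := by rw [← pow_mul, ← pow_add]; congr 1; ring
      _ ≤ 2 ^ (75 * (F.d + 1) * E₀) := by
        apply Nat.pow_le_pow_right (by norm_num)
        have h8 : F.t = 2 * (F.d + 1) := rfl
        rw [h8]
        calc (33 * E₀ + 1) * (2 * (F.d + 1)) ≤ (36 * E₀) * (2 * (F.d + 1)) := Nat.mul_le_mul_right _ (by omega)
          _ = 72 * ((F.d + 1) * E₀) := by ring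
          _ ≤ 75 * ((F.d + 1) * E₀) := Nat.mul_le_mul_right _ (by norm_num)
          _ = 75 * (F.d + 1) * E₀ := by ring
  · intro x hx hxE τ hτ1 hτ2 I hI hIne hIt m hm
    have hx1 : 1 ≤ x := hF.h1.le.trans hx.1
    have h1 := hE x hx1 hxE I (fun i => m i * ((τ : ℤ) + i)) hIt (fun i hi => Nat.lt_succ_iff.1 (Finset.mem_range.1 (hI hi))) ?_ ?_
    · have h2 : ∑ i ∈ I, ((m i * ((τ : ℤ) + i) : ℤ) : ℝ) * x ^ i = ∑ i ∈ I, (m i : ℝ) * ((τ : ℝ) + i) * x ^ i := by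
        refine Finset.sum_congr rfl fun i _ => ?_
        push_cast
        ring
      rw [h2] at h1
      refine le_trans ?_ h1
      -- `2 ^ (-D E) ≤ (ρ / 2) ^ t`
      have h3 : (1 / 2 : ℝ) ^ (F.D₁ * E₀) / 2 = (1 / 2) ^ (F.D₁ * E₀ + 1) := by ring
      rw [h3, ← pow_mul]
      apply pow_le_pow_of_le_one (by norm_num) (by norm_num)
      have h4 : F.D = (F.D₁ + 1) * F.t := rfl
      rw [h4]
      calc (F.D₁ * E₀ + 1) * F.t ≤ (F.D₁ * E₀ + E₀) * F.t := Nat.mul_le_mul_right _ (by omega)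
        _ = (F.D₁ + 1) * F.t * E₀ := by ring
    · intro i hi
      have h2 := (hm i hi).2
      have h3 : i ≤ S := Nat.lt_succ_iff.1 (Finset.mem_range.1 (hI hi))
      rw [abs_mul]
      push_cast
      have h4 : |((τ : ℤ) + i)| = (τ : ℤ) + i := abs_of_nonneg (by positivity)
      rw [h4]
      have h5 : ((τ : ℤ) + i) ≤ 2 ^ (3 * K) + S := by
        have : τ + i ≤ 2 ^ (3 * K) + S := Nat.add_le_add hτ2 h3
        exact_mod_cast this
      have h6 : |m i| ≤ 2 ^ (31 * E₀) := by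
        exact_mod_cast h2
      exact mul_le_mul h6 h5 (by positivity) (by positivity)
    · obtain ⟨i, hi⟩ := hIne
      refine ⟨i, hi, ?_⟩
      apply mul_ne_zero (hm i hi).1
      have : (1 : ℤ) ≤ τ := by exact_mod_cast hτ1
      have h0 : (0 : ℤ) ≤ i := by positivity
      omega

end Pool.Agent.Helper34.LD6
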